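import Pool.Agent.U609.RP.Top

/-!
# Restriction from `U(W)` to `U(W_{≥ -1})`: spectra are homeomorphic, primitive ideals lift

Let `r` be the restriction of ideals from `U(W)` to `U(W_{≥ -1})` over a field of characteristic zero.
* `r` is a homeomorphism from the space of prime ideals of `U(W)` onto the space of prime ideals of
  `U(W_{≥ -1})`, both with the hull-kernel topology.
* Every primitive ideal of `U(W_{≥ -1})` is the restriction of a primitive ideal of `U(W)`, which is the
  only prime ideal with this restriction.
* `r` is a homeomorphism, for the Jacobson topologies, from the set of the primitive ideals of `U(W)` with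
  primitive restriction onto the set of all primitive ideals of `U(W_{≥ -1})`.

So question Q1 is reduced to the assertion that restrictions of primitive ideals are primitive.

Idea.
* Expansion at infinity `t^n ∂ ↦ (t + c)^n ∂`, in powers of `c⁻¹`, is a homomorphism `T` from `U(W)` to
  Laurent series in `c⁻¹` over `U(W_{≥ -1})`.  On `U(W_{≥ -1})` it is `exp (c ad ∂)`.  For a two-sided ideal
  `I` of `U(W_{≥ -1})` let `s(I)` be the set of `u` with all coefficients of `T u` in `I`.  Then `r(s(I)) = I`,
  `s` commutes with intersections, and `s(Q)` is completely prime if `Q` is.  Prime ideals of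
  `U(W_{≥ -1})` are completely prime and `r` is injective on prime ideals (`Pool/Agent/R693`), so `s` is the
  inverse of `r` on prime ideals.
* Let `Q ≠ 0` be the annihilator of a simple module `M` and let `η` be the basic function of the prime
  ideal `P = s(Q)`: values of a power of a discriminant of shifts on products of generators.  For every
  `u ∈ U(W)` one has `η(n) u ∈ U(W_{≥ -1}) + P` for all large `n`.  After a twist of `M` by one of finitely many
  translations some vector `v` is not killed by `η(n)` for all large `n` (pigeonhole principle for the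
  points of `M`).  Then the left ideal of `U(W)` generated by `P` and the annihilator of `v` is proper, and
  a maximal left ideal containing it gives a simple module with annihilator `P`.  For `Q = 0` one uses
  that `U(W)` is free over `U(W_{≥ -1})`.
-/

set_option autoImplicit false

namespace Pool.Agent.Results.MP_fc828e_al.SpectraHomeomorphic

open Pool.Agent.R693 Pool.Agent.R693.W Pool.Agent.U609.RP

attribute [local instance 100] LieRing.ofAssociativeRing

/-- The homomorphism `U(L') → U(L)` of enveloping algebras induced by the inclusion of a Lie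
subalgebra. -/
noncomputable def incl (F : Type) [Field F] {L : Type} [LieRing L] [LieAlgebra F L]
    (L' : LieSubalgebra F L) :
    UniversalEnvelopingAlgebra F L' →ₐ[F] UniversalEnvelopingAlgebra F L :=
  UniversalEnvelopingAlgebra.lift F ((UniversalEnvelopingAlgebra.ι F).comp L'.incl)

/-- The restriction `r(I) = I ∩ U(L')` of a two-sided ideal of `U(L)`, as an ideal of `U(L')`. -/
noncomputable def restriction (F : Type) [Field F] {L : Type} [LieRing L] [LieAlgebra F L]
    (L' : LieSubalgebra F L) (I : TwoSidedIdeal (UniversalEnvelopingAlgebra F L)) :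
    TwoSidedIdeal (UniversalEnvelopingAlgebra F L') := TwoSidedIdeal.comap (incl F L') I

/-- A two-sided ideal is prime if it is proper and `a U b ⊆ P` implies `a ∈ P` or `b ∈ P`. -/
def IsPrime {U : Type} [Ring U] (P : TwoSidedIdeal U) : Prop :=
  P ≠ ⊤ ∧ ∀ a b : U, (∀ u : U, a * u * b ∈ P) → a ∈ P ∨ b ∈ P

/-- A two-sided ideal is primitive if it is the annihilator of a simple left module. -/
def IsPrimitive {U : Type} [Ring U] (P : TwoSidedIdeal U) : Prop :=
  ∃ (M : Type) (_ : AddCommGroup M) (_ : Module U M), IsSimpleModule U M ∧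
    ∀ a : U, a ∈ P ↔ ∀ x : M, a • x = 0

/-- The hull-kernel topology on a set `S` of two-sided ideals: it is generated by the complements of
the sets of the `P ∈ S` that contain a given two-sided ideal `I`.  For sets of prime ideals these
complements are all the open sets; for the set of primitive ideals it is the Jacobson topology. -/
abbrev jacobson {U : Type} [Ring U] (S : Set (TwoSidedIdeal U)) : TopologicalSpace S :=
  TopologicalSpace.generateFrom {O | ∃ I : TwoSidedIdeal U, O = {P : S | ¬ I ≤ P.1}}

/-- Restriction of ideals is a homeomorphism from `S` onto `S'`: it maps `S` bijectively onto `S'`, and it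
and its inverse are continuous for the hull-kernel topologies. -/
def RestrictionHomeomorphism (F : Type) [Field F] {L : Type} [LieRing L] [LieAlgebra F L]
    (L' : LieSubalgebra F L) (S : Set (TwoSidedIdeal (UniversalEnvelopingAlgebra F L)))
    (S' : Set (TwoSidedIdeal (UniversalEnvelopingAlgebra F L'))) : Prop :=
  ∃ E : S ≃ S', (∀ P : S, (E P).1 = restriction F L' P.1) ∧
    @Continuous _ _ (jacobson S) (jacobson S') E ∧
    @Continuous _ _ (jacobson S') (jacobson S) E.symm

lemma isPrime_iff {U : Type} [Ring U] (P : TwoSidedIdeal U) : IsPrime P ↔ IsPrimeT P := by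
  constructor
  · rintro ⟨h1, h2⟩
    exact isPrimeT_of_elt (fun h => h1 ((TwoSidedIdeal.one_mem_iff P).mp h)) h2
  · intro h
    exact ⟨h.1, fun a b hab => h.elt hab⟩

lemma IsPrimitive.prime {U : Type} [Ring U] {P : TwoSidedIdeal U} (h : IsPrimitive P) :
    IsPrimeT P := by
  obtain ⟨M, _, _, _, hM⟩ := h
  exact C.prime_of_ann hM

section uea
variable {F : Type} [Field F] {L : Type} [LieRing L] [LieAlgebra F L]

lemma iota_comm (x y : L) : UniversalEnvelopingAlgebra.ι F x * UniversalEnvelopingAlgebra.ι F y -
    UniversalEnvelopingAlgebra.ι F y * UniversalEnvelopingAlgebra.ι F x =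
      UniversalEnvelopingAlgebra.ι F ⁅x, y⁆ := by
  rw [LieHom.map_lie, LieRing.of_associative_ring_bracket]

/-- The universal property. -/
lemma exists_hom (c : Module.Basis ℤ F L)
    (hc : ∀ m n : ℤ, ⁅c m, c n⁆ = ((n - m : ℤ) : F) • c (m + n - 1)) (B : Type) [Ring B]
    [Algebra F B] (y : ℤ → B) (hy : IsW F y) :
    ∃ ψ : UniversalEnvelopingAlgebra F L →ₐ[F] B,
      ∀ n, ψ (UniversalEnvelopingAlgebra.ι F (c n)) = y n := by
  set f : L →ₗ[F] B := c.constr F y with hf
  have hfc : ∀ n, f (c n) = y n := fun n => c.constr_basis F y n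
  have h1 : ∀ x z : L, f ⁅x, z⁆ = f x * f z - f z * f x := by
    intro x z
    have hx : x ∈ Submodule.span F (Set.range c) := by rw [c.span_eq]; trivial
    have hz : z ∈ Submodule.span F (Set.range c) := by rw [c.span_eq]; trivial
    induction hx using Submodule.span_induction with
    | mem x hx =>
      obtain ⟨m, rfl⟩ := hx
      induction hz using Submodule.span_induction with
      | mem z hz =>
        obtain ⟨n, rfl⟩ := hz
        rw [hc, map_smul, hfc, hfc, hfc]
        exact (hy m n (m + n - 1) (by
          have h2 : (Lab.one : ℤ) = 1 := rfl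
          rw [h2]; ring)).symm
      | zero => rw [lie_zero, map_zero, mul_zero, zero_mul, sub_zero]
      | add y z _ _ hy hz =>
        rw [lie_add, map_add, hy, hz, map_add, mul_add, add_mul]
        abel
      | smul a y _ hy =>
        rw [lie_smul, map_smul, hy, map_smul, mul_smul_comm, smul_mul_assoc, smul_sub]
    | zero => rw [zero_lie, map_zero, mul_zero, zero_mul, sub_zero]
    | add y z _ _ hy hz =>
      rw [add_lie, map_add, hy, hz, map_add, mul_add, add_mul]
      abel
    | smul a y _ hy =>
      rw [smul_lie, map_smul, hy, map_smul, mul_smul_comm, smul_mul_assoc, smul_sub]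
  let g : L →ₗ⁅F⁆ B :=
    { f with
      map_lie' := by
        intro x z
        rw [LieRing.of_associative_ring_bracket]
        exact h1 x z }
  refine ⟨UniversalEnvelopingAlgebra.lift F g, fun n => ?_⟩
  rw [UniversalEnvelopingAlgebra.lift_ι_apply]
  exact hfc n

end uea

/-- Let `L` be the Witt algebra over a field of characteristic zero, with basis `e n`, `n ∈ ℤ`, and
bracket `[e m, e n] = (n - m) e (m + n)`, and let `L'` be its subalgebra spanned by the `e n` with
`n ≥ -1`.  Then:
* restriction is a homeomorphism from the space of prime ideals of `U(L)` onto the space of prime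
  ideals of `U(L')`;
* every primitive ideal `Q` of `U(L')` is the restriction of a primitive ideal `P` of `U(L)`, and `P` is
  the only prime ideal of `U(L)` with restriction `Q`;
* restriction is a homeomorphism from the set of the primitive ideals of `U(L)` with primitive
  restriction onto the set of all primitive ideals of `U(L')`. -/
theorem result (F : Type) [Field F] [CharZero F] (L : Type) [LieRing L] [LieAlgebra F L]
    (e : Module.Basis ℤ F L) (he : ∀ m n : ℤ, ⁅e m, e n⁆ = ((n - m : ℤ) : F) • e (m + n))
    (L' : LieSubalgebra F L)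
    (hL' : L'.toSubmodule = Submodule.span F {x | ∃ n : ℤ, -1 ≤ n ∧ x = e n}) :
    RestrictionHomeomorphism F L' {P | IsPrime P} {Q | IsPrime Q} ∧
    (∀ Q : TwoSidedIdeal (UniversalEnvelopingAlgebra F L'), IsPrimitive Q →
      ∃ P : TwoSidedIdeal (UniversalEnvelopingAlgebra F L), IsPrimitive P ∧
        restriction F L' P = Q ∧ ∀ P', IsPrime P' → restriction F L' P' = Q → P' = P) ∧
    RestrictionHomeomorphism F L' {P | IsPrimitive P ∧ IsPrimitive (restriction F L' P)}
      {Q | IsPrimitive Q} := by
  classical
  -- the shifted basis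
  let eqv : ℤ ≃ ℤ := ⟨fun i => i + 1, fun i => i - 1, fun i => by simp, fun i => by simp⟩
  set c : Module.Basis ℤ F L := e.reindex eqv with hc
  have hcm : ∀ m, c m = e (m - 1) := fun m => by rw [hc, Module.Basis.reindex_apply]; rfl
  have hcc : ∀ m n : ℤ, ⁅c m, c n⁆ = ((n - m : ℤ) : F) • c (m + n - 1) := by
    intro m n
    rw [hcm, hcm, hcm, he]
    have h1 : m - 1 + (n - 1) = m + n - 1 - 1 := by ring
    rw [h1]
    congr 2
    ring
  -- the basis of the subalgebra
  have hmem : ∀ m : ℕ, c m ∈ L' := by
    intro m
    rw [← LieSubalgebra.mem_toSubmodule, hL', hcm]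
    exact Submodule.subset_span ⟨(m : ℤ) - 1, by omega, rfl⟩
  let v : ℕ → L' := fun m => ⟨c m, hmem m⟩
  have hv : (L'.toSubmodule.subtype : L' →ₗ[F] L) ∘ v = fun m : ℕ => c m := rfl
  have hvLI : LinearIndependent F v := by
    apply LinearIndependent.of_comp (L'.toSubmodule.subtype : L' →ₗ[F] L)
    rw [hv]
    exact c.linearIndependent.comp _ Nat.cast_injective
  have hvsp : ⊤ ≤ Submodule.span F (Set.range v) := by
    rintro x -
    have h1 : (x : L) ∈ Submodule.map (L'.toSubmodule.subtype : L' →ₗ[F] L)
        (Submodule.span F (Set.range v)) := by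
      rw [Submodule.map_span, ← Set.range_comp, hv]
      have h2 : (x : L) ∈ L'.toSubmodule := x.2
      rw [hL'] at h2
      refine Submodule.span_mono ?_ h2
      rintro _ ⟨n, hn, rfl⟩
      refine ⟨(n + 1).toNat, ?_⟩
      beta_reduce
      rw [hcm]
      congr 1
      omega
    obtain ⟨y, hy, hyx⟩ := h1
    have : y = x := Subtype.ext hyx
    rwa [← this]
  let c' : Module.Basis ℕ F L' := Module.Basis.mk hvLI hvsp
  have hc' : ∀ m, c' m = v m := fun m => by
    change Module.Basis.mk hvLI hvsp m = v m
    rw [Module.Basis.mk_apply]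
  -- the generators
  set eA : ℤ → UniversalEnvelopingAlgebra F L := fun m => UniversalEnvelopingAlgebra.ι F (c m)
    with heA
  set eP : ℕ → UniversalEnvelopingAlgebra F L' := fun m => UniversalEnvelopingAlgebra.ι F (c' m)
    with heP
  have hφ : ∀ n : ℕ, incl F L' (eP n) = eA n := by
    intro n
    change incl F L' (UniversalEnvelopingAlgebra.ι F (c' n)) = _
    unfold incl
    rw [UniversalEnvelopingAlgebra.lift_ι_apply, hc']
    rfl
  have hW : IsW F eA := by
    intro m n j hmn
    have h2 : (Lab.one : ℤ) = 1 := rfl
    have h3 : ∀ k : ℤ, (Lab.c k : ℤ) = k := fun k => rfl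
    rw [h2] at hmn
    rw [heA]
    beta_reduce
    rw [iota_comm, hcc, map_smul, h3, h3]
    congr 3
    omega
  -- the bases of the enveloping algebras
  obtain ⟨β, hβ⟩ := PBW.exists_basis F L ℤ c
  obtain ⟨β', hβ'⟩ := PBW.exists_basis F L' ℕ c'
  have hinj : Function.Injective (incl F L') := by
    let g : {l : List ℕ // l.Pairwise (· ≤ ·)} → {l : List ℤ // l.Pairwise (· ≤ ·)} :=
      fun l => ⟨l.1.map (fun n : ℕ => (n : ℤ)), by
        rw [List.pairwise_map]
        exact l.2.imp (fun h => by exact_mod_cast h)⟩
    have hg : Function.Injective g := by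
      intro l l' h
      apply Subtype.ext
      have h1 : l.1.map (fun n : ℕ => (n : ℤ)) = l'.1.map (fun n : ℕ => (n : ℤ)) :=
        congrArg Subtype.val h
      exact List.map_injective_iff.mpr Nat.cast_injective h1
    have h1 : ∀ l, incl F L' (β' l) = β (g l) := by
      intro l
      rw [hβ', hβ, map_list_prod, List.map_map, List.map_map]
      congr 1
      apply List.map_congr_left
      intro n _
      exact hφ n
    have h2 : LinearIndependent F ((incl F L').toLinearMap ∘ β') := by
      have h3 : (incl F L').toLinearMap ∘ β' = β ∘ g := by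
        funext l
        exact h1 l
      rw [h3]
      exact β.linearIndependent.comp g hg
    rw [injective_iff_map_eq_zero]
    intro x hx
    have h4 : Finsupp.linearCombination F ((incl F L').toLinearMap ∘ β') (β'.repr x) = 0 := by
      rw [← Finsupp.apply_linearCombination, Module.Basis.linearCombination_repr]
      exact hx
    have h5 : β'.repr x = 0 := by
      have h6 : Function.Injective (Finsupp.linearCombination F ((incl F L').toLinearMap ∘ β')) :=
        h2
      apply h6
      rw [h4, map_zero]
    rwa [LinearEquiv.map_eq_zero_iff] at h5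
  have hPW : IsW F eP := by
    intro m n j hmn
    apply hinj
    have h2 : (Lab.one : ℕ) = 1 := rfl
    rw [h2] at hmn
    rw [map_sub, map_mul, map_mul, map_smul, hφ, hφ, hφ]
    exact hW m n j (by
      have h2 : (Lab.one : ℤ) = 1 := rfl
      rw [h2]
      exact_mod_cast hmn)
  obtain ⟨hd1, hd2, _⟩ := H67OL.t_DOM H67OL.t_PBW2 H67OL.t_SORT F L
  obtain ⟨hd3, hd4, _⟩ := H67OL.t_DOM H67OL.t_PBW2 H67OL.t_SORT F L'
  have hgen := span_of_adjoin (uea_adjoin_basis F c)
  have hgenp := span_of_adjoin (uea_adjoin_basis F c')
  obtain ⟨h1, h2, -⟩ := restrict_bij (incl F L') hφ hinj hW hgen hgenp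
    (fun B _ _ y hy => exists_hom c hcc B y hy)
    (exists_ne (by
      have h4 : (fun l : {l : List ℤ // l.Pairwise (· ≤ ·)} => wd eA l.1) = β := by
        funext l
        rw [hβ]
        rfl
      rw [h4]
      exact β.linearIndependent))
  -- the expansion
  obtain ⟨T, hT⟩ := exists_hom c hcc (HahnSeries ℤ (UniversalEnvelopingAlgebra F L'))
    (Yn F eP) (Yn_isW hPW)
  have hcs : ∀ I, TwoSidedIdeal.comap (incl F L') (sI T I) = I :=
    fun I => comap_sI (incl F L') hφ hPW hgenp T hT I
  have hsp : ∀ Q : TwoSidedIdeal (UniversalEnvelopingAlgebra F L'), IsPrimeT Q →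
      IsPrimeT (sI T Q) := by
    intro Q hQ
    apply sI_prime
    · intro h
      exact hQ.1 ((TwoSidedIdeal.one_mem_iff Q).mp h)
    · intro a b hab
      exact C.cp_one (F := F) hPW hgenp (fun x y h => mul_eq_zero.mp h) hQ hab
  have hsc : ∀ P : TwoSidedIdeal (UniversalEnvelopingAlgebra F L), IsPrimeT P →
      sI T (TwoSidedIdeal.comap (incl F L') P) = P :=
    fun P hP => h2 _ _ (hsp _ (h1 P hP)) hP (hcs _)
  have hlift : ∀ P : TwoSidedIdeal (UniversalEnvelopingAlgebra F L), IsPrimeT P →
      IsPrimitive (TwoSidedIdeal.comap (incl F L') P) → IsPrimitive P := by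
    intro P hP hQ
    have hinjP : ∀ P' : TwoSidedIdeal (UniversalEnvelopingAlgebra F L), IsPrimeT P' →
      TwoSidedIdeal.comap (incl F L') P' = TwoSidedIdeal.comap (incl F L') P → P' = P :=
      fun P' hP' h => h2 P' P hP' hP h
    by_cases h0 : P = ⊥
    · subst h0
      exact lift_zero β hβ β' hβ' (incl F L') hφ hinj hinjP hQ
    · exact lift_prim (incl F L') hφ hW hPW hgen hgenp hP h0 hinjP hQ
  refine ⟨?_, ?_, ?_⟩
  · apply homeo (incl F L') T
    · intro P hP
      exact (isPrime_iff _).mpr (h1 P ((isPrime_iff _).mp hP))
    · intro Q hQ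
      exact (isPrime_iff _).mpr (hsp Q ((isPrime_iff _).mp hQ))
    · intro P hP
      exact hsc P ((isPrime_iff _).mp hP)
    · intro Q _
      exact hcs Q
  · intro Q hQ
    refine ⟨sI T Q, hlift _ (hsp Q hQ.prime) ?_, hcs Q, ?_⟩
    · rw [hcs]
      exact hQ
    · intro P' hP' h
      exact h2 _ _ ((isPrime_iff _).mp hP') (hsp Q hQ.prime) (by rw [hcs]; exact h)
  · apply homeo (incl F L') T
    · intro P hP
      exact hP.2
    · intro Q hQ
      refine ⟨hlift _ (hsp Q (IsPrimitive.prime hQ)) ?_, ?_⟩
      · rw [hcs]
        exact hQ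
      · change IsPrimitive (TwoSidedIdeal.comap (incl F L') (sI T Q))
        rw [hcs]
        exact hQ
    · intro P hP
      exact hsc P hP.1.prime
    · intro Q _
      exact hcs Q

end Pool.Agent.Results.MP_fc828e_al.SpectraHomeomorphic
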